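import Pool.Agent.Helper73.BG.St

set_option autoImplicit false

namespace Pool.Agent.Helper73.BG

open Pool.Agent.Helper43.GD

private lemma cj_succ {G : Type} [Group G] (a t : G) (i : ℤ) :
    t⁻¹ * cj a t i * t = cj a t (i + 1) := by
  unfold cj
  rw [neg_add, zpow_add, zpow_add, zpow_neg_one, zpow_one]
  have e : t ^ (-i) * t⁻¹ = t⁻¹ * t ^ (-i) := by
    rw [← zpow_neg_one, ← zpow_add, ← zpow_add, add_comm]
  rw [e]
  group

private theorem cj_add {G : Type} [Group G] (b t : G) (i j : ℤ) :
    cj b t (i + j) = cj (cj b t i) t j := by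
  unfold cj
  rw [show -(i + j) = -j + -i by ring, zpow_add, zpow_add]
  simp only [mul_assoc]

private theorem cj_mul {G : Type} [Group G] (b c t : G) (i : ℤ) :
    cj (b * c) t i = cj b t i * cj c t i := by
  unfold cj
  group

private theorem cj_inv {G : Type} [Group G] (b t : G) (i : ℤ) :
    cj b⁻¹ t i = (cj b t i)⁻¹ := by
  unfold cj
  group

theorem hB3 : StB3 := by
  intro G _ l k h a t hh hcomm0 hinvh hlk
  have hcomm : ∀ x ∈ Set.range (cj a t), ∀ y ∈ Set.range (cj a t), x * y = y * x := by
    rintro x ⟨i, rfl⟩ y ⟨j, rfl⟩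
    exact hcomm0 i j
  let U : Subgroup G := Subgroup.closure (Set.range (cj a t))
  letI : CommGroup U := Subgroup.closureCommGroupOfComm hcomm
  have hmem : ∀ i, cj a t i ∈ U := fun i => Subgroup.subset_closure ⟨i, rfl⟩
  have ha0 : cj a t 0 = a := by unfold cj; simp
  have hUt : ∀ u ∈ U, t⁻¹ * u * t ∈ U := by
    intro u hu
    induction hu using Subgroup.closure_induction with
    | mem x hx =>
      obtain ⟨i, rfl⟩ := hx
      rw [cj_succ]
      exact hmem _
    | one => simp
    | mul x y _ _ ihx ihy =>
      have : t⁻¹ * (x * y) * t = (t⁻¹ * x * t) * (t⁻¹ * y * t) := by group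
      rw [this]; exact U.mul_mem ihx ihy
    | inv x _ ih =>
      have : t⁻¹ * x⁻¹ * t = (t⁻¹ * x * t)⁻¹ := by group
      rw [this]; exact U.inv_mem ih
  let T : AddMonoid.End (Additive U) :=
    { toFun := fun u => Additive.ofMul ⟨t⁻¹ * ((Additive.toMul u : U) : G) * t,
        hUt _ (Additive.toMul u : U).2⟩
      map_zero' := by
        apply Additive.toMul.injective
        apply Subtype.ext
        change t⁻¹ * ((1 : U) : G) * t = 1
        simp
      map_add' := by
        intro u v
        apply Additive.toMul.injective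
        apply Subtype.ext
        change t⁻¹ * (((Additive.toMul u : U) : G) * ((Additive.toMul v : U) : G)) * t =
          (t⁻¹ * ((Additive.toMul u : U) : G) * t) * (t⁻¹ * ((Additive.toMul v : U) : G) * t)
        group }
  let v : ℤ → Additive U := fun i => Additive.ofMul ⟨cj a t i, hmem i⟩
  have extA : ∀ u v : Additive U, ((Additive.toMul u : U) : G) = ((Additive.toMul v : U) : G) →
      u = v := by
    intro u v huv
    exact Additive.toMul.injective (Subtype.ext huv)
  have hTv : ∀ i, T (v i) = v (i + 1) := by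
    intro i
    apply extA
    exact cj_succ a t i
  have hTinj : ∀ u : Additive U, T u = 0 → u = 0 := by
    intro u hu
    apply extA
    have h1 : t⁻¹ * ((Additive.toMul u : U) : G) * t = 1 :=
      congrArg (fun w : Additive U => ((Additive.toMul w : U) : G)) hu
    change ((Additive.toMul u : U) : G) = 1
    calc ((Additive.toMul u : U) : G) = t * (t⁻¹ * ((Additive.toMul u : U) : G) * t) * t⁻¹ := by
          group
      _ = 1 := by rw [h1]; group
  -- an endomorphism vanishing on all `v i` is zero
  have hgen : ∀ c : AddMonoid.End (Additive U), (∀ i, c (v i) = 0) → c = 0 := by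
    intro c hc
    apply AddMonoidHom.ext
    intro u
    change c u = 0
    have key : ∀ (g : G) (hg : g ∈ U), c (Additive.ofMul ⟨g, hg⟩) = 0 := by
      intro g hg
      induction hg using Subgroup.closure_induction with
      | mem x hx =>
        obtain ⟨i, rfl⟩ := hx
        exact hc i
      | one => exact map_zero c
      | mul x y hx hy ihx ihy =>
        have : (Additive.ofMul ⟨x * y, U.mul_mem hx hy⟩ : Additive U) =
            Additive.ofMul ⟨x, hx⟩ + Additive.ofMul ⟨y, hy⟩ := rfl
        rw [this, map_add, ihx, ihy, add_zero]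
      | inv x hx ih =>
        have : (Additive.ofMul ⟨x⁻¹, U.inv_mem hx⟩ : Additive U) = -Additive.ofMul ⟨x, hx⟩ := rfl
        rw [this, map_neg, ih, neg_zero]
    exact key _ (Additive.toMul u : U).2
  have hTpow : ∀ (k : ℕ) (i : ℤ), (T ^ k) (v i) = v (i + k) := by
    intro k
    induction k with
    | zero =>
      intro i
      rw [pow_zero]
      change v i = v (i + ((0 : ℕ) : ℤ))
      simp
    | succ k ih =>
      intro i
      rw [pow_succ']
      change T ((T ^ k) (v i)) = _
      rw [ih, hTv]
      congr 1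
      push_cast
      ring
  have hTh : T ^ h = -1 := by
    have h0 : T ^ h - (-1) = 0 := by
      apply hgen
      intro i
      change (T ^ h) (v i) - (-(v i)) = 0
      rw [hTpow, sub_eq_zero]
      apply extA
      change cj a t (i + h) = (cj a t i)⁻¹
      rw [add_comm, cj_add, hinvh, cj_inv]
    exact sub_eq_zero.1 h0
  have hTlk : T ^ l + T ^ k = 1 := by
    have h0 : T ^ l + T ^ k - 1 = 0 := by
      apply hgen
      intro i
      change (T ^ l) (v i) + (T ^ k) (v i) - v i = 0
      rw [hTpow, hTpow, sub_eq_zero]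
      apply extA
      change cj a t (i + l) * cj a t (i + k) = cj a t i
      rw [add_comm i, add_comm i, cj_add, cj_add, ← cj_mul, hlk]
    exact sub_eq_zero.1 h0
  have hT1 : T * (-(T ^ (h - 1))) = 1 := by
    have e : T * T ^ (h - 1) = -1 := by rw [← pow_succ', Nat.sub_add_cancel hh, hTh]
    apply AddMonoidHom.ext
    intro u
    have e1 : T ((T ^ (h - 1)) u) = -u :=
      congrArg (fun f : AddMonoid.End (Additive U) => f u) e
    change T (-((T ^ (h - 1)) u)) = u
    rw [map_neg, e1, neg_neg]
  have hT1' : (-(T ^ (h - 1))) * T = 1 := by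
    have e : T ^ (h - 1) * T = -1 := by rw [← pow_succ, Nat.sub_add_cancel hh, hTh]
    apply AddMonoidHom.ext
    intro u
    have e1 : (T ^ (h - 1)) (T u) = -u :=
      congrArg (fun f : AddMonoid.End (Additive U) => f u) e
    change -((T ^ (h - 1)) (T u)) = u
    rw [e1, neg_neg]
  let L : Subring (AddMonoid.End (Additive U)) := Subring.closure {T}
  have hTL : T ∈ L := Subring.subset_closure rfl
  letI : CommRing L := Subring.closureCommRingOfComm (by
    rintro x hx y hy
    rw [Set.mem_singleton_iff] at hx hy
    rw [hx, hy])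
  let x : Lˣ :=
    { val := ⟨T, hTL⟩
      inv := ⟨-(T ^ (h - 1)), L.neg_mem (L.pow_mem hTL _)⟩
      val_inv := Subtype.ext hT1
      inv_val := Subtype.ext hT1' }
  let v0 : Additive U := Additive.ofMul ⟨a, by rw [← ha0]; exact hmem 0⟩
  have hv0 : v0 = v 0 := by
    apply extA
    exact ha0.symm
  have hcT : ∀ c : L, ∀ u, (c : AddMonoid.End (Additive U)) (T u) =
      T ((c : AddMonoid.End (Additive U)) u) := by
    intro c u
    have e : c * ⟨T, hTL⟩ = ⟨T, hTL⟩ * c := mul_comm _ _
    have e' : (c : AddMonoid.End (Additive U)) * T = T * (c : AddMonoid.End (Additive U)) :=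
      congrArg Subtype.val e
    exact congrArg (fun f : AddMonoid.End (Additive U) => f u) e'
  have hinj : ∀ c : L, (c : AddMonoid.End (Additive U)) v0 = 0 →
      (c : AddMonoid.End (Additive U)) = 0 := by
    intro c hc
    apply hgen
    intro i
    induction i using Int.induction_on with
    | zero => rw [← hv0]; exact hc
    | succ i ih =>
      rw [← hTv, hcT, ih, map_zero]
    | pred i ih =>
      apply hTinj
      rw [← hcT, hTv, sub_add_cancel]
      exact ih
  refine ⟨L, inferInstance, x, fun p => ((Additive.toMul ((p : AddMonoid.End (Additive U)) v0) : U) : G),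
    ?_, ?_, ?_, ?_, ?_, ?_, ?_⟩
  · intro p q
    rfl
  · intro p q hpq
    have h1 : (p : AddMonoid.End (Additive U)) v0 = (q : AddMonoid.End (Additive U)) v0 :=
      extA _ _ hpq
    have h2 : ((p - q : L) : AddMonoid.End (Additive U)) v0 = 0 := by
      change (p : AddMonoid.End (Additive U)) v0 - (q : AddMonoid.End (Additive U)) v0 = 0
      rw [h1, sub_self]
    have h3 := hinj (p - q) h2
    have h4 : p - q = 0 := Subtype.ext h3
    exact sub_eq_zero.1 h4
  · rfl
  · intro p
    rfl
  · intro N h1 hN y
    have key : ∀ (p : AddMonoid.End (Additive U)) (hp : p ∈ L), ∀ z ∈ N, (⟨p, hp⟩ : L) * z ∈ N := by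
      intro p hp
      induction hp using Subring.closure_induction with
      | mem w hw =>
        rw [Set.mem_singleton_iff] at hw
        subst hw
        intro z hz
        exact hN z hz
      | zero =>
        intro z hz
        have : (⟨0, L.zero_mem⟩ : L) * z = 0 := zero_mul z
        rw [this]
        exact N.zero_mem
      | one =>
        intro z hz
        have : (⟨1, L.one_mem⟩ : L) * z = z := one_mul z
        rw [this]
        exact hz
      | add p q hp hq ihp ihq =>
        intro z hz
        have : (⟨p + q, L.add_mem hp hq⟩ : L) * z = (⟨p, hp⟩ : L) * z + (⟨q, hq⟩ : L) * z :=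
          add_mul (⟨p, hp⟩ : L) ⟨q, hq⟩ z
        rw [this]
        exact N.add_mem (ihp z hz) (ihq z hz)
      | neg p hp ih =>
        intro z hz
        have : (⟨-p, L.neg_mem hp⟩ : L) * z = -((⟨p, hp⟩ : L) * z) := neg_mul (⟨p, hp⟩ : L) z
        rw [this]
        exact N.neg_mem (ih z hz)
      | mul p q hp hq ihp ihq =>
        intro z hz
        have : (⟨p * q, L.mul_mem hp hq⟩ : L) * z = (⟨p, hp⟩ : L) * ((⟨q, hq⟩ : L) * z) :=
          mul_assoc (⟨p, hp⟩ : L) ⟨q, hq⟩ z
        rw [this]
        exact ihp _ (ihq z hz)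
    have h2 := key y y.2 1 h1
    have h3 : (⟨y, y.2⟩ : L) * 1 = y := mul_one y
    rwa [h3] at h2
  · apply Subtype.ext
    change ((⟨T, hTL⟩ ^ h : L) : AddMonoid.End (Additive U)) = -1
    rw [Subring.coe_pow]
    exact hTh
  · apply Subtype.ext
    change ((⟨T, hTL⟩ ^ l : L) : AddMonoid.End (Additive U)) +
      ((⟨T, hTL⟩ ^ k : L) : AddMonoid.End (Additive U)) = 1
    rw [Subring.coe_pow, Subring.coe_pow]
    exact hTlk

end Pool.Agent.Helper73.BG
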