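import Pool.Agent.Helper73.BG.St

set_option autoImplicit false

namespace Pool.Agent.Helper73.BG

open Pool.Agent.Helper43.GD Polynomial

private theorem noroot (l k h : ℕ) (hh : 1 ≤ h) (hc : Cop l k h) (z : ℂ) (h1 : z ^ h = -1)
    (h2 : z ^ l + z ^ k = 1) : False := by
  have hz0 : z ≠ 0 := by
    rintro rfl
    rw [zero_pow (by omega)] at h1
    norm_num at h1
  have hn : ‖z‖ = 1 := by
    have := congrArg norm h1
    rw [norm_pow, norm_neg, norm_one] at this
    exact (pow_eq_one_iff_of_nonneg (norm_nonneg z) (by omega)).1 this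
  have hconj : (starRingEnd ℂ) z * z = 1 := by
    rw [mul_comm, Complex.mul_conj, Complex.normSq_eq_norm_sq, hn]
    norm_num
  have h3 : (starRingEnd ℂ) z ^ l + (starRingEnd ℂ) z ^ k = 1 := by
    have := congrArg (starRingEnd ℂ) h2
    simpa using this
  have h4 : z ^ l * z ^ k = 1 := by
    have e1 : (starRingEnd ℂ) z ^ l * z ^ l = 1 := by rw [← mul_pow, hconj, one_pow]
    have e2 : (starRingEnd ℂ) z ^ k * z ^ k = 1 := by rw [← mul_pow, hconj, one_pow]
    linear_combination (-(z ^ l * z ^ k)) * h3 + z ^ k * e1 + z ^ l * e2 + h2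
  have h5 : (z ^ l) ^ 3 = -1 := by
    linear_combination (z ^ l + 1) * (z ^ l * h2 - h4)
  have h6 : z ^ ((k : ℤ) + l) = 1 := by
    rw [zpow_add₀ hz0, zpow_natCast, zpow_natCast, mul_comm]
    exact h4
  have h7 : z ^ ((h : ℤ) + k - 2 * l) = 1 := by
    have e : (h : ℤ) + k - 2 * l = h + ((k : ℤ) + l) - ((l * 3 : ℕ) : ℤ) := by
      push_cast
      ring
    rw [e, zpow_sub₀ hz0, zpow_add₀ hz0, h6, zpow_natCast, zpow_natCast, h1, pow_mul, h5]
    norm_num
  obtain ⟨u, v, huv⟩ := hc
  have h8 : z = 1 := by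
    have : z ^ (u * ((k : ℤ) + l) + v * ((h : ℤ) + k - 2 * l)) = 1 := by
      rw [zpow_add₀ hz0, mul_comm u, mul_comm v, zpow_mul, zpow_mul, h6, h7, one_zpow, one_zpow,
        one_mul]
    rwa [huv, zpow_one] at this
  rw [h8, one_pow, one_pow] at h2
  norm_num at h2

private theorem bez (l k h : ℕ) (hh : 1 ≤ h) (hc : Cop l k h) :
    ∃ (N : ℤ) (U V : ℤ[X]), N ≠ 0 ∧ U * (X ^ h + 1) + V * (X ^ l + X ^ k - 1) = C N := by
  have hco : IsCoprime (X ^ h + 1 : ℚ[X]) (X ^ l + X ^ k - 1) := by
    refine (Polynomial.isCoprime_iff_aeval_ne_zero_of_isAlgClosed (k := ℚ) ℂ _ _).2 ?_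
    intro z
    by_contra hcon
    push Not at hcon
    obtain ⟨h1, h2⟩ := hcon
    apply noroot l k h hh hc z
    · have : z ^ h + 1 = 0 := by simpa using h1
      exact eq_neg_of_add_eq_zero_left this
    · have : z ^ l + z ^ k - 1 = 0 := by simpa using h2
      exact sub_eq_zero.1 this
  obtain ⟨u, v, huv⟩ := hco
  obtain ⟨b, hb, hbu⟩ := IsLocalization.integerNormalization_spec (nonZeroDivisors ℤ) u
  obtain ⟨c, hc', hcv⟩ := IsLocalization.integerNormalization_spec (nonZeroDivisors ℤ) v
  have hb0 : b ≠ 0 := nonZeroDivisors.ne_zero hb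
  have hc0 : c ≠ 0 := nonZeroDivisors.ne_zero hc'
  refine ⟨b * c, C c * IsLocalization.integerNormalization (nonZeroDivisors ℤ) u,
    C b * IsLocalization.integerNormalization (nonZeroDivisors ℤ) v, mul_ne_zero hb0 hc0, ?_⟩
  apply Polynomial.map_injective (algebraMap ℤ ℚ) (RingHom.injective_int (algebraMap ℤ ℚ))
  simp only [Polynomial.map_add, Polynomial.map_mul, Polynomial.map_sub, Polynomial.map_pow,
    Polynomial.map_X, Polynomial.map_one, Polynomial.map_C, hbu, hcv]
  have e1 : b • u = C (algebraMap ℤ ℚ b) * u := by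
    rw [← Polynomial.smul_eq_C_mul, algebraMap_smul]
  have e2 : c • v = C (algebraMap ℤ ℚ c) * v := by
    rw [← Polynomial.smul_eq_C_mul, algebraMap_smul]
  rw [e1, e2, map_mul, C_mul]
  linear_combination (C (algebraMap ℤ ℚ b) * C (algebraMap ℤ ℚ c)) * huv

theorem hB4 : StB4 := by
  intro l k h L _ x hh hc hG hxh hlk
  obtain ⟨N, U, V, hN, hUV⟩ := bez l k h hh hc
  have hN0 : (N : L) = 0 := by
    have := congrArg (aeval (x : L)) hUV
    simp only [map_add, map_mul, map_sub, map_pow, aeval_X, map_one, aeval_C, hxh, hlk] at this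
    simpa using this.symm
  let S : Set L := (fun i : ℕ => (x : L) ^ i) '' (Finset.range h : Set ℕ)
  have hS : S.Finite := (Finset.finite_toSet _).image _
  have hmem : ∀ i < h, (x : L) ^ i ∈ Submodule.span ℤ S := fun i hi =>
    Submodule.subset_span ⟨i, by simpa using hi, rfl⟩
  have htop : ∀ y : L, y ∈ Submodule.span ℤ S := by
    intro y
    refine hG (Submodule.span ℤ S).toAddSubgroup ?_ ?_ y
    · have := hmem 0 hh
      rw [pow_zero] at this
      exact this
    · intro z hz
      change z ∈ Submodule.span ℤ S at hz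
      change (x : L) * z ∈ Submodule.span ℤ S
      induction hz using Submodule.span_induction with
      | mem y hy =>
        obtain ⟨i, hi, rfl⟩ := hy
        have hi' : i < h := by simpa using hi
        change (x : L) * (x : L) ^ i ∈ Submodule.span ℤ S
        rw [← pow_succ']
        by_cases hlt : i + 1 < h
        · exact hmem _ hlt
        · have : i + 1 = h := by omega
          rw [this, hxh]
          have h0 := hmem 0 hh
          rw [pow_zero] at h0
          exact Submodule.neg_mem _ h0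
      | zero => rw [mul_zero]; exact Submodule.zero_mem _
      | add y z _ _ ihy ihz => rw [mul_add]; exact Submodule.add_mem _ ihy ihz
      | smul c y _ ih => rw [mul_smul_comm]; exact Submodule.smul_mem _ c ih
  have hfin : Module.Finite ℤ L := by
    refine ⟨⟨hS.toFinset, ?_⟩⟩
    rw [hS.coe_toFinset, eq_top_iff]
    intro y _
    exact htop y
  apply Module.finite_of_fg_torsion
  intro y
  refine ⟨⟨N, mem_nonZeroDivisors_of_ne_zero hN⟩, ?_⟩
  change N • y = 0
  rw [zsmul_eq_mul, hN0, zero_mul]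

end Pool.Agent.Helper73.BG
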