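import Pool.Agent.Helper73.BG.M_B1

set_option autoImplicit false

namespace Pool.Agent.Helper73.BG

open Pool.Agent.Helper43.GD

private theorem quot {G : Type} [Group G] (z : G) (hz : ∀ g, z * g = g * z) (hzz : z * z = 1) :
    ∃ (Q : Type) (_ : Group Q) (π : G →* Q), Function.Surjective π ∧ π z = 1 ∧
      (Finite Q → Finite G) := by
  have hN : (Subgroup.zpowers z).Normal := by
    constructor
    intro n hn g
    obtain ⟨i, rfl⟩ := Subgroup.mem_zpowers_iff.1 hn
    have hc : Commute g z := (hz g).symm
    have : g * z ^ i * g⁻¹ = z ^ i := by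
      rw [(hc.zpow_right i).eq, mul_inv_cancel_right]
    rw [this]
    exact hn
  refine ⟨G ⧸ Subgroup.zpowers z, inferInstance, QuotientGroup.mk' _,
    QuotientGroup.mk'_surjective _, ?_, ?_⟩
  · exact (QuotientGroup.eq_one_iff z).2 (Subgroup.mem_zpowers z)
  · intro hQ
    have hfo : IsOfFinOrder z := by
      rw [isOfFinOrder_iff_pow_eq_one]
      exact ⟨2, by norm_num, by rw [pow_two]; exact hzz⟩
    have hfin : Finite (Subgroup.zpowers z) := finite_zpowers.2 hfo
    exact Finite.of_equiv _ (Subgroup.groupEquivQuotientProdSubgroup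
      (s := Subgroup.zpowers z)).symm

private theorem central {G : Type} [Group G] (a w t z : G)
    (hcl : Subgroup.closure {a, w, t} = (⊤ : Subgroup G))
    (ha : z * a = a * z) (hw : z * w = w * z) (ht : z * t = t * z) : ∀ g, z * g = g * z := by
  intro g
  have hle : Subgroup.closure {a, w, t} ≤ Subgroup.centralizer ({z} : Set G) := by
    rw [Subgroup.closure_le]
    intro y hy
    rw [SetLike.mem_coe, Subgroup.mem_centralizer_iff]
    intro u hu
    rw [Set.mem_singleton_iff] at hu
    subst hu
    simp only [Set.mem_insert_iff, Set.mem_singleton_iff] at hy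
    rcases hy with rfl | rfl | rfl
    · exact ha
    · exact hw
    · exact ht
  have hg : g ∈ Subgroup.closure {a, w, t} := by rw [hcl]; exact Subgroup.mem_top g
  exact Subgroup.mem_centralizer_iff.1 (hle hg) z rfl

private theorem clmap {G Q : Type} [Group G] [Group Q] (π : G →* Q)
    (hπ : Function.Surjective π) (a w t : G)
    (hcl : Subgroup.closure {a, w, t} = (⊤ : Subgroup G)) :
    Subgroup.closure {π a, π w, π t} = (⊤ : Subgroup Q) := by
  have h1 : Subgroup.map π (Subgroup.closure {a, w, t}) = ⊤ := by
    rw [hcl]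
    exact Subgroup.map_top_of_surjective π hπ
  rw [MonoidHom.map_closure] at h1
  rw [← h1]
  congr 1
  simp [Set.image_insert_eq]

private theorem cjmap {G Q : Type} [Group G] [Group Q] (π : G →* Q) (a t : G) (i : ℤ) :
    π (cj a t i) = cj (π a) (π t) i := by
  unfold cj
  simp

theorem hB5 : StB5 := by
  intro l k h hc hyp G _ a w t h4 haa hza hzt h1 h2 h3 hcl
  obtain ⟨Q, _, π, hπ, hπz, hfin⟩ := quot (w * w)
    (central a w t (w * w) hcl hza (mul_assoc w w w) hzt) h4
  apply hfin
  have hww : π w * π w = 1 := by rw [← map_mul]; exact hπz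
  have hwi : (π w)⁻¹ = π w := inv_eq_of_mul_eq_one_left hww
  have hR : RelB l k h (π a) (π w) (π t) := by
    refine ⟨hww, ?_, ?_, ?_, ?_⟩
    · rw [← map_mul, haa]; exact hπz
    · have := congrArg π h1
      simp only [map_mul, map_inv] at this
      rw [hwi] at this
      exact this
    · have := congrArg π h2
      simp only [map_mul, map_inv] at this
      rw [hwi] at this
      exact this
    · have := congrArg π h3
      simp only [map_mul, map_pow, cjmap] at this
      exact this
  have hclQ := clmap π hπ a w t hcl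
  obtain ⟨b1, b2, b3, b4⟩ := hB1 Q l k h (π a) (π w) (π t) hc hR
  obtain ⟨Q', _, ρ, hρ, hρz, hfin'⟩ := quot (π t ^ h * π t ^ h)
    (central (π a) (π w) (π t) _ hclQ b1 b2 b3) b4
  apply hfin'
  refine hyp Q' (ρ (π a)) (ρ (π w)) (ρ (π t)) ?_ ?_ (clmap ρ hρ _ _ _ hclQ)
  · refine ⟨?_, ?_, ?_, ?_, ?_⟩
    · have := congrArg ρ hR.ww
      simpa only [map_mul, map_one] using this
    · have := congrArg ρ hR.aa
      simpa only [map_mul, map_one] using this
    · have := congrArg ρ hR.r1
      simpa only [map_mul] using this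
    · have := congrArg ρ hR.r2
      simpa only [map_mul, map_inv] using this
    · have := congrArg ρ hR.r3
      simpa only [map_mul, map_pow, cjmap] using this
  · rw [← map_pow, ← map_mul]
    exact hρz

end Pool.Agent.Helper73.BG
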