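import Pool.Agent.Helper73.BG.M_B2
import Pool.Agent.Helper73.BG.M_B3
import Pool.Agent.Helper73.BG.M_B4
import Pool.Agent.Helper73.BG.M_B5
import Pool.Agent.Helper70.BG.A

/-!
# MP_b3ce06_al, odd `q`: the reduction of finiteness to systems over finite rings
-/

set_option autoImplicit false

namespace Pool.Agent.Helper73.BG

open Pool.Agent.Helper43.GD

/-- (B6) -/
def StB6 : Prop :=
  ∀ (l k h : ℕ), 1 ≤ h → Cop l k h →
    (∀ (L : Type) [CommRing L] (x : Lˣ), Finite L → Gn (x : L) → (x : L) ^ h = -1 →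
      (x : L) ^ l + (x : L) ^ k = 1 → FinP L x) →
    ∀ (G : Type) [Group G] (a w t : G), RelB l k h a w t → t ^ h * t ^ h = 1 →
      Subgroup.closure {a, w, t} = (⊤ : Subgroup G) → Finite G

theorem hB6 : StB6 := by
  intro l k h hh hc hfin G _ a w t hR htt hcl
  obtain ⟨e1, e2, e3, e4, e5⟩ := hB2 G l k h a w t (a * t ^ h) hc hR htt rfl
  obtain ⟨L, _, x, E, Eadd, Einj, E1, Et, hGn, hxh, hlk⟩ := hB3 G l k h (a * t ^ h) t hh e3 e1 e2
  have hL : Finite L := hB4 l k h L x hh hc hGn hxh hlk
  have hF := hfin L x hL hGn hxh hlk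
  have ww := hR.ww
  have wi : w⁻¹ = w := inv_eq_of_mul_eq_one_left ww
  have ti : (t ^ h)⁻¹ = t ^ h := inv_eq_of_mul_eq_one_left htt
  have wt : w * t = t⁻¹ * w := by
    calc w * t = (w * t * w) * w⁻¹ := by group
      _ = t⁻¹ * w := by rw [hR.r2, wi]
  have tw : t * w = w * t⁻¹ := by
    calc t * w = w⁻¹ * (w * t * w) := by group
      _ = w * t⁻¹ := by rw [hR.r2, wi]
  have wt' : w * t⁻¹ = t * w := tw.symm
  have tw' : t⁻¹ * w = w * t := wt.symm
  let s : Sys L G :=
    { E := E
      F := fun c => w * E c * w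
      Eadd := Eadd
      Fadd := by
        intro c d
        change w * E (c + d) * w = (w * E c * w) * (w * E d * w)
        calc w * E (c + d) * w = w * E c * (w * w) * E d * w := by rw [Eadd, ww]; group
          _ = _ := by group }
  have hsE : ∀ c, s.E c = E c := fun c => rfl
  have hsF : ∀ c, s.F c = w * E c * w := fun c => rfl
  -- torus
  have hT : s.IsTor x t⁻¹ := by
    constructor
    · intro c
      rw [hsE, hsE, inv_inv]
      exact Et c
    · intro c
      rw [hsF, hsF, inv_inv]
      have e0 : t * E c * t⁻¹ = E (((x⁻¹ : Lˣ) : L) * c) := by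
        have := Et (((x⁻¹ : Lˣ) : L) * c)
        rw [Units.mul_inv_cancel_left] at this
        rw [← this]
        group
      calc t⁻¹ * (w * E c * w) * t = (t⁻¹ * w) * E c * (w * t) := by group
        _ = (w * t) * E c * (t⁻¹ * w) := by rw [tw', ← tw']
        _ = w * (t * E c * t⁻¹) * w := by group
        _ = _ := by rw [e0]
  have htn : ∀ (n : ℕ) (c : L), (t ^ n)⁻¹ * E c * t ^ n = E ((x : L) ^ n * c) := by
    intro n
    induction n with
    | zero => intro c; simp
    | succ n ih =>
      intro c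
      calc (t ^ (n + 1))⁻¹ * E c * t ^ (n + 1) = t⁻¹ * ((t ^ n)⁻¹ * E c * t ^ n) * t := by
            rw [pow_succ]; group
        _ = _ := by rw [ih, Et, pow_succ', mul_assoc]
  have hth : ∀ c : L, t ^ h * E c * t ^ h = E (-c) := by
    intro c
    have := htn h c
    rw [ti, hxh, neg_one_mul] at this
    exact this
  have hEneg : E (-1) = (E 1)⁻¹ := s.E_neg 1
  have homm : s.om (-1) = w * t ^ h := by
    unfold Sys.om
    rw [hsE, hsF]
    have u1 : (((-1 : Lˣ)⁻¹ : Lˣ) : L) = -1 := by simp
    rw [u1, neg_neg, Units.val_neg, Units.val_one, hEneg, E1]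
    exact e5
  have hom2 : (w * t ^ h) * (w * t ^ h) = 1 := by
    calc (w * t ^ h) * (w * t ^ h) = w * (t ^ h * w) * t ^ h := by group
      _ = w * (w * t ^ h) * t ^ h := by rw [e4]
      _ = (w * w) * (t ^ h * t ^ h) := by group
      _ = 1 := by rw [ww, htt, one_mul]
  have homi : (w * t ^ h)⁻¹ = w * t ^ h := inv_eq_of_mul_eq_one_left hom2
  have hom1 : s.om 1 = w * t ^ h := by
    have := s.om_neg (-1)
    rw [neg_neg, homm, homi] at this
    exact this
  have hW1 : s.Weyl 1 := by
    constructor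
    · intro c
      rw [hom1, homi, hsE, hsF, inv_one, Units.val_one, one_mul, one_mul, ← hth]
      calc w * t ^ h * E c * (w * t ^ h) = w * t ^ h * E c * (t ^ h * w) := by rw [e4]
        _ = _ := by group
    · intro c
      rw [hom1, homi, hsE, hsF, Units.val_one, one_mul, one_mul, ← hth]
      calc w * t ^ h * (w * E c * w) * (w * t ^ h)
          = (w * t ^ h) * w * E c * (w * w) * t ^ h := by group
        _ = (t ^ h * w) * w * E c * t ^ h := by rw [e4, ww, mul_one]
        _ = t ^ h * (w * w) * E c * t ^ h := by group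
        _ = _ := by rw [ww, mul_one]
  have hWx : s.Weyl x := by
    have := s.weyl_tor hT hW1
    rwa [mul_one] at this
  have hfinN : Finite s.gp := hF G s hW1 hWx
  -- the subgroup `s.gp` is normal
  have ht1 : ∀ n ∈ s.gp, t⁻¹ * n * t ∈ s.gp := by
    intro n hn
    unfold Sys.gp at hn
    induction hn using Subgroup.closure_induction with
    | mem y hy =>
      rcases hy with ⟨c, rfl⟩ | ⟨c, rfl⟩
      · have := hT.1 c
        rw [inv_inv] at this
        rw [this]
        exact s.E_mem _
      · have := hT.2 c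
        rw [inv_inv] at this
        rw [this]
        exact s.F_mem _
    | one => simpa using s.gp.one_mem
    | mul y z _ _ ihy ihz =>
      have : t⁻¹ * (y * z) * t = (t⁻¹ * y * t) * (t⁻¹ * z * t) := by group
      rw [this]
      exact s.gp.mul_mem ihy ihz
    | inv y _ ih =>
      have : t⁻¹ * y⁻¹ * t = (t⁻¹ * y * t)⁻¹ := by group
      rw [this]
      exact s.gp.inv_mem ih
  have ht1n : ∀ (m : ℕ), ∀ n ∈ s.gp, (t ^ m)⁻¹ * n * t ^ m ∈ s.gp := by
    intro m
    induction m with
    | zero => intro n hn; simpa using hn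
    | succ m ih =>
      intro n hn
      have : (t ^ (m + 1))⁻¹ * n * t ^ (m + 1) = t⁻¹ * ((t ^ m)⁻¹ * n * t ^ m) * t := by
        rw [pow_succ]; group
      rw [this]
      exact ht1 _ (ih n hn)
  have ht2 : ∀ n ∈ s.gp, t * n * t⁻¹ ∈ s.gp := by
    intro n hn
    have e : (t ^ (h + h - 1))⁻¹ = t := by
      apply inv_eq_of_mul_eq_one_left
      rw [← pow_succ', Nat.sub_add_cancel (by omega), pow_add, htt]
    have e' : t ^ (h + h - 1) = t⁻¹ := by rw [← inv_inj, e, inv_inv]
    have := ht1n (h + h - 1) n hn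
    rwa [e, e'] at this
  have htN : t ∈ Subgroup.normalizer (s.gp : Set G) := by
    rw [Subgroup.mem_normalizer_iff]
    intro n
    constructor
    · exact ht2 n
    · intro hn
      have := ht1 _ hn
      have e : t⁻¹ * (t * n * t⁻¹) * t = n := by group
      rwa [e] at this
  have hleN : s.gp ≤ Subgroup.normalizer (s.gp : Set G) := Subgroup.le_normalizer
  have hwt : w * t ^ h ∈ s.gp := by rw [← hom1]; exact s.om_mem 1
  have hat : a * t ^ h ∈ s.gp := by rw [← E1]; exact s.E_mem 1
  have hw' : w = (w * t ^ h) * t ^ h := by rw [mul_assoc, htt, mul_one]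
  have ha' : a = (a * t ^ h) * t ^ h := by rw [mul_assoc, htt, mul_one]
  have hnorm : s.gp.Normal := by
    rw [← Subgroup.normalizer_eq_top_iff, eq_top_iff, ← hcl, Subgroup.closure_le]
    intro y hy
    simp only [Set.mem_insert_iff, Set.mem_singleton_iff] at hy
    have htp := (Subgroup.normalizer (s.gp : Set G)).pow_mem htN h
    rcases hy with rfl | rfl | rfl
    · rw [ha']
      exact (Subgroup.normalizer (s.gp : Set G)).mul_mem (hleN hat) htp
    · rw [hw']
      exact (Subgroup.normalizer (s.gp : Set G)).mul_mem (hleN hwt) htp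
    · exact htN
  have hq : Finite (G ⧸ s.gp) := by
    let π := QuotientGroup.mk' s.gp
    have hπN : ∀ n ∈ s.gp, π n = 1 := fun n hn => (QuotientGroup.eq_one_iff n).2 hn
    have hall : ∀ q : G ⧸ s.gp, q ∈ Subgroup.zpowers (π t) := by
      intro q
      obtain ⟨g, rfl⟩ := QuotientGroup.mk'_surjective s.gp q
      have hg : g ∈ Subgroup.closure {a, w, t} := by rw [hcl]; exact Subgroup.mem_top g
      have hle : Subgroup.closure {a, w, t} ≤ (Subgroup.zpowers (π t)).comap π := by
        rw [Subgroup.closure_le]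
        intro y hy
        simp only [Set.mem_insert_iff, Set.mem_singleton_iff] at hy
        rw [SetLike.mem_coe, Subgroup.mem_comap]
        rcases hy with rfl | rfl | rfl
        · rw [ha', map_mul, hπN _ hat, one_mul, map_pow]
          exact Subgroup.pow_mem _ (Subgroup.mem_zpowers _) h
        · rw [hw', map_mul, hπN _ hwt, one_mul, map_pow]
          exact Subgroup.pow_mem _ (Subgroup.mem_zpowers _) h
        · exact Subgroup.mem_zpowers _
      exact hle hg
    have hfo : IsOfFinOrder (π t) := by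
      rw [isOfFinOrder_iff_pow_eq_one]
      refine ⟨h + h, by omega, ?_⟩
      rw [← map_pow, pow_add, htt, map_one]
    have hz : Finite (Subgroup.zpowers (π t)) := finite_zpowers.2 hfo
    have hs : Function.Surjective (fun y : Subgroup.zpowers (π t) => (y : G ⧸ s.gp)) :=
      fun q => ⟨⟨q, hall q⟩, rfl⟩
    exact Finite.of_surjective _ hs
  exact Finite.of_equiv _ (Subgroup.groupEquivQuotientProdSubgroup (s := s.gp)).symm

/-- **Parts (A) and (B)**: the finiteness of `G` follows from the finiteness of the groups generated by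
systems over the finite rings `L = ℤ[x]`, `x^h = -1`, `x^l + x^k = 1`. -/
theorem partAB (l k h : ℕ) (hh : 1 ≤ h) (hc : Cop l k h)
    (hfin : ∀ (L : Type) [CommRing L] (x : Lˣ), Finite L → Gn (x : L) → (x : L) ^ h = -1 →
      (x : L) ^ l + (x : L) ^ k = 1 → FinP L x)
    (G : Type) [Group G] (a w t : G) (h1 : a * w * a = w * a * w⁻¹) (h2 : w⁻¹ * t * w = t⁻¹)
    (h3 : cj a t (l : ℤ) = a * cj a t (k : ℤ) * t ^ h)
    (hcl : Subgroup.closure {a, w, t} = (⊤ : Subgroup G)) : Finite G := by
  have h3' : t ^ (-(l : ℤ)) * a * t ^ (l : ℤ) = a * (t ^ (-(k : ℤ)) * a * t ^ (k : ℤ)) * t ^ (h : ℤ) := by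
    rw [zpow_natCast t h]
    exact h3
  obtain ⟨p1, p2, p3, p4, p5, p6⟩ := Pool.Agent.Helper70.BG.partA_t h1 h2 h3'
  exact hB5 l k h hc (hB6 l k h hh hc hfin) G a w t p2 p1 p4 p5 h1 h2 h3 hcl

end Pool.Agent.Helper73.BG
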