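import Pool.Agent.Helper73.BG.St

set_option autoImplicit false

namespace Pool.Agent.Helper73.BG

open Pool.Agent.Helper43.GD

private theorem key {G : Type} [Group G] (l k h : ℤ) (a t : G) (haa : a * a = 1)
    (hc : IsCoprime (k + l) (h + k - 2 * l))
    (r3 : cj a t l = a * cj a t k * t ^ h) : Commute (t ^ (2 * h)) a := by
  have hai : a⁻¹ = a := inv_eq_of_mul_eq_one_left haa
  obtain ⟨m, hm⟩ : ∃ m : ℤ, m = l - h - k := ⟨_, rfl⟩
  obtain ⟨c, hcd⟩ : ∃ c : G, c = a * t * a⁻¹ := ⟨_, rfl⟩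
  have hcn : ∀ n : ℤ, c ^ n = a * t ^ n * a⁻¹ := by
    intro n
    rw [hcd, conj_zpow]
  have hW : a * t ^ k * a * t ^ (-l) * a * t ^ m = 1 := by
    unfold cj at r3
    have e1 : a * t ^ k * a * (t ^ (-l) * a * t ^ l) * t ^ (-h - k) = 1 := by
      rw [r3]
      calc a * t ^ k * a * (a * (t ^ (-k) * a * t ^ k) * t ^ h) * t ^ (-h - k)
          = a * t ^ k * (a * a) * t ^ (-k) * a := by group
        _ = 1 := by
          rw [haa]
          calc a * t ^ k * 1 * t ^ (-k) * a = a * a := by group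
            _ = 1 := haa
    rw [← e1, hm]
    group
  have I1 : c ^ k = t ^ (-m) * a * t ^ l := by
    calc c ^ k = (a * t ^ k * a * t ^ (-l) * a * t ^ m) * t ^ (-m) * a⁻¹ * t ^ l * (a * a)⁻¹ := by
          rw [hcn]; group
      _ = _ := by rw [hW, haa, hai]; simp
  have I2 : c ^ (-l) = t ^ (-k) * a * t ^ (-m) := by
    calc c ^ (-l) = t ^ (-k) * a⁻¹ * (a * t ^ k * a * t ^ (-l) * a * t ^ m) * t ^ (-m) *
          (a * a)⁻¹ := by
          rw [hcn]; group
      _ = _ := by rw [hW, haa, hai]; simp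
  have I3 : c ^ m = t ^ l * a * t ^ (-k) := by
    calc c ^ m = t ^ l * a⁻¹ * t ^ (-k) * (a⁻¹ * (a * t ^ k * a * t ^ (-l) * a * t ^ m) *
          a⁻¹) := by
          rw [hcn]; group
      _ = t ^ l * a⁻¹ * t ^ (-k) * (a * a)⁻¹ := by rw [hW]; group
      _ = _ := by rw [haa, hai]; simp
  -- the three products
  have E1 : c ^ (k - m) = t ^ (-m) * c ^ (k + l) * t ^ (-l) := by
    calc c ^ (k - m) = c ^ k * (c ^ m)⁻¹ := by rw [zpow_sub]
      _ = t ^ (-m) * (a * t ^ (k + l) * a⁻¹) * t ^ (-l) := by rw [I1, I3]; group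
      _ = _ := by rw [← hcn]
  have E2 : c ^ (-l - k) = t ^ (-k) * c ^ (-m - l) * t ^ m := by
    calc c ^ (-l - k) = c ^ (-l) * (c ^ k)⁻¹ := by rw [zpow_sub]
      _ = t ^ (-k) * (a * t ^ (-m - l) * a⁻¹) * t ^ m := by rw [I2, I1]; group
      _ = _ := by rw [← hcn]
  have E3 : c ^ (m + l) = t ^ l * c ^ (m - k) * t ^ k := by
    calc c ^ (m + l) = c ^ m * (c ^ (-l))⁻¹ := by rw [← zpow_neg, neg_neg, ← zpow_add]
      _ = t ^ l * (a * t ^ (m - k) * a⁻¹) * t ^ k := by rw [I3, I2]; group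
      _ = _ := by rw [← hcn]
  obtain ⟨P, hP⟩ : ∃ P : G, P = c ^ (k - m) := ⟨_, rfl⟩
  have hQ1 : c ^ (k + l) = t ^ m * P * t ^ l := by
    rw [hP, E1]; group
  have hR : c ^ (-m - l) = t ^ (-k) * P * t ^ (-l) := by
    have e : c ^ (-m - l) = (c ^ (m + l))⁻¹ := by rw [← zpow_neg]; congr 1; ring
    rw [e, E3, hP]
    group
  have hQ2 : c ^ (-l - k) = t ^ (-(2 * k)) * P * t ^ (m - l) := by
    rw [E2, hR]; group
  have hPP : P = t ^ (2 * k - l) * P⁻¹ * t ^ (l - 2 * m) := by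
    have e : c ^ (-l - k) = (c ^ (k + l))⁻¹ := by rw [← zpow_neg]; congr 1; ring
    rw [hQ1, hQ2] at e
    calc P = t ^ (2 * k) * (t ^ (-(2 * k)) * P * t ^ (m - l)) * t ^ (l - m) := by group
      _ = t ^ (2 * k) * ((t ^ m * P * t ^ l)⁻¹) * t ^ (l - m) := by rw [e]
      _ = _ := by group
  have hcomP : Commute (t ^ (2 * h)) P := by
    -- P⁻¹ = t^(2m-l) P t^(l-2k)
    have e1 : P = t ^ (l - 2 * m) * P⁻¹ * t ^ (2 * k - l) := by
      calc P = t ^ (l - 2 * m) * (t ^ (2 * k - l) * P⁻¹ * t ^ (l - 2 * m))⁻¹ *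
            t ^ (2 * k - l) := by group
        _ = _ := by rw [← hPP]
    have e3 : t ^ (2 * k - l) * P⁻¹ * t ^ (l - 2 * m) =
        t ^ (l - 2 * m) * P⁻¹ * t ^ (2 * k - l) := by rw [← hPP, ← e1]
    have e4 : t ^ (-(2 * h)) * P⁻¹ = P⁻¹ * t ^ (-(2 * h)) := by
      calc t ^ (-(2 * h)) * P⁻¹ =
            t ^ (2 * m - l) * (t ^ (2 * k - l) * P⁻¹ * t ^ (l - 2 * m)) * t ^ (2 * m - l) := by
            rw [hm]; group
        _ = t ^ (2 * m - l) * (t ^ (l - 2 * m) * P⁻¹ * t ^ (2 * k - l)) * t ^ (2 * m - l) := by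
            rw [e3]
        _ = _ := by rw [hm]; group
    have e5 : Commute (t ^ (-(2 * h))) P⁻¹ := e4
    rw [Commute.inv_right_iff, zpow_neg, Commute.inv_left_iff] at e5
    exact e5
  have ht : ∀ n : ℤ, Commute (t ^ (2 * h)) (t ^ n) := fun n => (Commute.refl t).zpow_zpow _ _
  have hcomQ : Commute (t ^ (2 * h)) (c ^ (k + l)) := by
    rw [hQ1]
    exact ((ht _).mul_right hcomP).mul_right (ht _)
  have hcomc : Commute (t ^ (2 * h)) c := by
    obtain ⟨u, v, huv⟩ := hc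
    have e : c = (c ^ (k + l)) ^ (u - v) * P ^ v := by
      rw [hP, ← zpow_mul, ← zpow_mul, ← zpow_add]
      have e6 : (k + l) * (u - v) + (k - m) * v = 1 := by
        rw [← huv, hm]; ring
      rw [e6, zpow_one]
    rw [e]
    exact (hcomQ.zpow_right _).mul_right (hcomP.zpow_right _)
  have hfin : a = t ^ m * c ^ k * t ^ (-l) := by
    rw [I1]; group
  rw [hfin]
  exact ((ht _).mul_right (hcomc.zpow_right _)).mul_right (ht _)

theorem hB1 : StB1 := by
  intro G _ l k h a w t hc R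
  have hai : a⁻¹ = a := inv_eq_of_mul_eq_one_left R.aa
  have hwi : w⁻¹ = w := inv_eq_of_mul_eq_one_left R.ww
  have e0 : t ^ h * t ^ h = t ^ (2 * (h : ℤ)) := by
    rw [two_mul, zpow_add, zpow_natCast]
  have h1 : Commute (t ^ (2 * (h : ℤ))) a := by
    apply key (l : ℤ) (k : ℤ) (h : ℤ) a t R.aa hc
    rw [R.r3, zpow_natCast]
  rw [e0]
  obtain ⟨u, hu⟩ : ∃ u : G, u = t ^ (2 * (h : ℤ)) := ⟨_, rfl⟩
  rw [← hu] at h1 ⊢
  have hw : w * u * w = u⁻¹ := by
    have e1 : w * t ^ (2 * (h : ℤ)) * w⁻¹ = (w * t * w⁻¹) ^ (2 * (h : ℤ)) := by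
      rw [conj_zpow]
    rw [hwi, R.r2, inv_zpow, ← hu] at e1
    exact e1
  have hau : a * u = u * a := h1.eq.symm
  have hwu : w * u = u⁻¹ * w := by
    calc w * u = (w * u * w) * w⁻¹ := by group
      _ = _ := by rw [hw, hwi]
  have hwu' : w * u⁻¹ = u * w := by
    calc w * u⁻¹ = (w * (w * u * w)) := by rw [hw]
      _ = (w * w) * u * w := by group
      _ = _ := by rw [R.ww, one_mul]
  have hau' : a * u⁻¹ = u⁻¹ * a := by
    have := h1.inv_left.eq
    exact this.symm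
  have e1 : (a * w * a) * u = u⁻¹ * (a * w * a) := by
    calc (a * w * a) * u = a * w * (a * u) := by group
      _ = a * (w * u) * a := by rw [hau]; group
      _ = (a * u⁻¹) * w * a := by rw [hwu]; group
      _ = _ := by rw [hau']; group
  have e2 : (w * a * w) * u = u * (w * a * w) := by
    calc (w * a * w) * u = w * a * (w * u) := by group
      _ = w * (a * u⁻¹) * w := by rw [hwu]; group
      _ = (w * u⁻¹) * a * w := by rw [hau']; group
      _ = _ := by rw [hwu']; group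
  rw [R.r1, e2] at e1
  have huu : u = u⁻¹ := mul_right_cancel e1
  have huu1 : u * u = 1 := by
    nth_rewrite 1 [huu]
    exact inv_mul_cancel u
  refine ⟨h1.eq, ?_, ?_, huu1⟩
  · rw [hwu, ← huu]
  · rw [hu]
    exact ((Commute.refl t).zpow_left _).eq

end Pool.Agent.Helper73.BG
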