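import Pool.Agent.Helper73.BG.St

set_option autoImplicit false

namespace Pool.Agent.Helper73.BG

open Pool.Agent.Helper43.GD

private theorem cj_add {G : Type} [Group G] (b t : G) (i j : ℤ) :
    cj b t (i + j) = t ^ (-j) * cj b t i * t ^ j := by
  unfold cj
  rw [show -(i + j) = -j + -i by ring, zpow_add, zpow_add]
  simp only [mul_assoc]

private theorem cj_mul {G : Type} [Group G] (b c t : G) (i : ℤ) :
    cj (b * c) t i = cj b t i * cj c t i := by
  unfold cj
  group

private theorem cj_inv {G : Type} [Group G] (b t : G) (i : ℤ) :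
    cj b⁻¹ t i = (cj b t i)⁻¹ := by
  unfold cj
  group

private theorem cj_cj {G : Type} [Group G] (b t : G) (i j : ℤ) :
    cj (cj b t i) t j = cj b t (i + j) := by
  rw [cj_add]
  rfl

/-- the combinatorial lemma -/
private theorem all_mem (D : Set ℤ) (l k h : ℤ) (hc : IsCoprime (k + l) (h + k - 2 * l))
    (h0 : (0 : ℤ) ∈ D) (hl : l ∈ D) (hk : k ∈ D) (hneg : ∀ n, n ∈ D → -n ∈ D)
    (hh : ∀ n, n ∈ D → n + h ∈ D)
    (r1 : ∀ n, n + l ∈ D → n + k ∈ D → n ∈ D)
    (r2 : ∀ n, n ∈ D → n + k ∈ D → n + l ∈ D)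
    (r3 : ∀ n, n ∈ D → n + l ∈ D → n + k ∈ D) : ∀ n, n ∈ D := by
  have hneg' : ∀ n, -n ∈ D → n ∈ D := by
    intro n hn
    have := hneg _ hn
    rwa [neg_neg] at this
  -- rows 0 and 1
  have hkl : k + l ∈ D := by
    apply hneg'
    apply r1
    · have : -(k + l) + l = -k := by ring
      rw [this]
      exact hneg _ hk
    · have : -(k + l) + k = -l := by ring
      rw [this]
      exact hneg _ hl
  have rows : ∀ n : ℕ, (n : ℤ) * k ∈ D ∧ ((n : ℤ) + 1) * k ∈ D ∧ (n : ℤ) * k + l ∈ D ∧
      ((n : ℤ) + 1) * k + l ∈ D := by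
    intro n
    induction n with
    | zero =>
      refine ⟨?_, ?_, ?_, ?_⟩
      · simpa using h0
      · simpa using hk
      · simpa using hl
      · simpa using hkl
    | succ n ih =>
      obtain ⟨i1, i2, i3, i4⟩ := ih
      have j1 : ((n : ℤ) + 1 + 1) * k ∈ D := by
        have e : ((n : ℤ) + 1 + 1) * k = ((n : ℤ) + 1) * k + k := by ring
        rw [e]
        exact r3 _ i2 i4
      have j2 : ((n : ℤ) + 1 + 1) * k + l ∈ D := by
        apply hneg'
        apply r1
        · have e : -(((n : ℤ) + 1 + 1) * k + l) + l = -(((n : ℤ) + 1 + 1) * k) := by ring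
          rw [e]
          exact hneg _ j1
        · have e : -(((n : ℤ) + 1 + 1) * k + l) + k = -(((n : ℤ) + 1) * k + l) := by ring
          rw [e]
          exact hneg _ i4
      push_cast
      exact ⟨i2, j1, i4, j2⟩
  have row0 : ∀ i : ℤ, i * k ∈ D := by
    intro i
    rcases Int.eq_nat_or_neg i with ⟨n, hn | hn⟩
    · rw [hn]; exact (rows n).1
    · rw [hn]
      have e : (-(n : ℤ)) * k = -((n : ℤ) * k) := by ring
      rw [e]
      exact hneg _ (rows n).1
  have rowj : ∀ j : ℕ, ∀ i : ℤ, i * k + (j : ℤ) * l ∈ D := by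
    intro j
    induction j with
    | zero => intro i; simpa using row0 i
    | succ j ih =>
      intro i
      have e : i * k + ((j + 1 : ℕ) : ℤ) * l = (i * k + (j : ℤ) * l) + l := by push_cast; ring
      rw [e]
      apply r2 _ (ih i)
      have e2 : i * k + (j : ℤ) * l + k = (i + 1) * k + (j : ℤ) * l := by ring
      rw [e2]
      exact ih (i + 1)
  have lat : ∀ i j : ℤ, i * k + j * l ∈ D := by
    intro i j
    rcases Int.eq_nat_or_neg j with ⟨n, hn | hn⟩
    · rw [hn]; exact rowj n i
    · rw [hn]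
      have e : i * k + -(n : ℤ) * l = -((-i) * k + (n : ℤ) * l) := by ring
      rw [e]
      exact hneg _ (rowj n (-i))
  have hmul : ∀ (m : ℕ) (n : ℤ), n ∈ D → n + (m : ℤ) * h ∈ D := by
    intro m
    induction m with
    | zero => intro n hn; simpa using hn
    | succ m ih =>
      intro n hn
      have e : n + ((m + 1 : ℕ) : ℤ) * h = (n + (m : ℤ) * h) + h := by push_cast; ring
      rw [e]
      exact hh _ (ih n hn)
  have lat3 : ∀ i j m : ℤ, i * k + j * l + m * h ∈ D := by
    intro i j m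
    rcases Int.eq_nat_or_neg m with ⟨n, hn | hn⟩
    · rw [hn]; exact hmul n _ (lat i j)
    · rw [hn]
      apply hneg'
      have e : -(i * k + j * l + -(n : ℤ) * h) = ((-i) * k + (-j) * l) + (n : ℤ) * h := by ring
      rw [e]
      exact hmul n _ (lat _ _)
  obtain ⟨u, v, huv⟩ := hc
  intro n
  have e : n = (n * (u + v)) * k + (n * (u - 2 * v)) * l + (n * v) * h := by
    have : n = n * 1 := by ring
    nth_rewrite 1 [this]
    rw [← huv]
    ring
  rw [e]
  exact lat3 _ _ _

theorem hB2 : StB2 := by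
  intro G _ l k h a w t b hc R hss hb
  obtain ⟨s, hs⟩ : ∃ s : G, s = t ^ h := ⟨_, rfl⟩
  rw [← hs] at hss hb ⊢
  have hai : a⁻¹ = a := inv_eq_of_mul_eq_one_left R.aa
  have hwi : w⁻¹ = w := inv_eq_of_mul_eq_one_left R.ww
  have hsi : s⁻¹ = s := inv_eq_of_mul_eq_one_left hss
  have hst : Commute s t := by rw [hs]; exact (Commute.refl t).pow_left _
  have hsz : s = t ^ (h : ℤ) := by rw [hs, zpow_natCast]
  have hcs : ∀ i : ℤ, cj s t i = s := by
    intro i
    unfold cj
    have e : t ^ (-i) * s = s * t ^ (-i) := ((hst.zpow_right (-i)).eq).symm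
    rw [e]
    group
  have hbi : ∀ i : ℤ, cj b t i = cj a t i * s := by
    intro i
    rw [hb, cj_mul, hcs]
  have hbinv : b⁻¹ = s * a := by rw [hb, mul_inv_rev, hsi, hai]
  have H1 : cj b t (h : ℤ) = b⁻¹ := by
    unfold cj
    rw [hbinv, zpow_neg, ← hsz, hsi, hb]
    calc s * (a * s) * s = s * a * (s * s) := by group
      _ = _ := by rw [hss, mul_one]
  have caa : ∀ i : ℤ, cj a t i * cj a t i = 1 := by
    intro i
    rw [← cj_mul, R.aa]
    unfold cj
    group
  have r3 : cj a t (l : ℤ) = a * cj a t (k : ℤ) * s := by rw [R.r3, hs]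
  have H2 : cj b t (l : ℤ) * cj b t (k : ℤ) = b := by
    rw [hbi, hbi, r3]
    calc a * cj a t (k : ℤ) * s * s * (cj a t (k : ℤ) * s)
        = a * cj a t (k : ℤ) * (s * s) * cj a t (k : ℤ) * s := by group
      _ = a * (cj a t (k : ℤ) * cj a t (k : ℤ)) * s := by rw [hss]; group
      _ = b := by rw [caa, hb, mul_one]
  have hsh : ∀ i : ℤ, cj b t (i + h) = (cj b t i)⁻¹ := by
    intro i
    rw [add_comm, ← cj_cj, H1, cj_inv]
  have H2' : cj b t (k : ℤ) * cj b t (l : ℤ) = b := by
    have e1 : cj (cj b t (l : ℤ) * cj b t (k : ℤ)) t (h : ℤ) = cj b t (h : ℤ) := by rw [H2]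
    rw [cj_mul, cj_cj, cj_cj, hsh, hsh, H1, ← mul_inv_rev] at e1
    exact inv_injective e1
  have hrel : ∀ j : ℤ, cj b t j = cj b t (j + l) * cj b t (j + k) := by
    intro j
    have e1 : cj (cj b t (l : ℤ) * cj b t (k : ℤ)) t j = cj b t j := by rw [H2]
    rw [cj_mul, cj_cj, cj_cj] at e1
    rw [← e1, add_comm j, add_comm j]
  have c0 : cj b t 0 = b := by unfold cj; simp
  have hD : ∀ n : ℤ, n ∈ {n : ℤ | Commute b (cj b t n)} := by
    apply all_mem _ (l : ℤ) (k : ℤ) (h : ℤ) hc
    · change Commute b (cj b t 0)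
      rw [c0]
    · change b * cj b t (l : ℤ) = cj b t (l : ℤ) * b
      obtain ⟨p, hp⟩ : ∃ p : G, p = cj b t (l : ℤ) := ⟨_, rfl⟩
      obtain ⟨q, hq⟩ : ∃ q : G, q = cj b t (k : ℤ) := ⟨_, rfl⟩
      rw [← hp, ← hq] at H2 H2'
      rw [← hp]
      calc b * p = (p * q) * p := by rw [H2]
        _ = p * (q * p) := by group
        _ = p * b := by rw [H2']
    · change b * cj b t (k : ℤ) = cj b t (k : ℤ) * b
      obtain ⟨p, hp⟩ : ∃ p : G, p = cj b t (l : ℤ) := ⟨_, rfl⟩
      obtain ⟨q, hq⟩ : ∃ q : G, q = cj b t (k : ℤ) := ⟨_, rfl⟩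
      rw [← hp, ← hq] at H2 H2'
      rw [← hq]
      calc b * q = (q * p) * q := by rw [H2']
        _ = q * (p * q) := by group
        _ = q * b := by rw [H2]
    · intro n hn
      change b * cj b t (-n) = cj b t (-n) * b
      change b * cj b t n = cj b t n * b at hn
      have e1 : cj (b * cj b t n) t (-n) = cj (cj b t n * b) t (-n) := by rw [hn]
      rw [cj_mul, cj_mul, cj_cj, add_neg_cancel, c0] at e1
      exact e1.symm
    · intro n hn
      change Commute b (cj b t n) at hn
      change Commute b (cj b t (n + h))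
      rw [hsh]
      exact hn.inv_right
    · intro n h1 h2
      change Commute b (cj b t (n + l)) at h1
      change Commute b (cj b t (n + k)) at h2
      change Commute b (cj b t n)
      rw [hrel n]
      exact h1.mul_right h2
    · intro n h1 h2
      change Commute b (cj b t n) at h1
      change Commute b (cj b t (n + k)) at h2
      change Commute b (cj b t (n + l))
      have e1 : cj b t (n + l) = cj b t n * (cj b t (n + k))⁻¹ := by
        rw [hrel n]; group
      rw [e1]
      exact h1.mul_right h2.inv_right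
    · intro n h1 h2
      change Commute b (cj b t n) at h1
      change Commute b (cj b t (n + l)) at h2
      change Commute b (cj b t (n + k))
      have e1 : cj b t (n + k) = (cj b t (n + l))⁻¹ * cj b t n := by
        rw [hrel n]; group
      rw [e1]
      exact h2.inv_right.mul_right h1
  have hws : w * s = s * w := by
    have e1 : w * t ^ (h : ℤ) * w⁻¹ = (w * t * w⁻¹) ^ (h : ℤ) := by rw [conj_zpow]
    rw [hwi, R.r2, inv_zpow, ← hsz, hsi] at e1
    calc w * s = (w * s * w) * w⁻¹ := by group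
      _ = _ := by rw [e1, hwi]
  refine ⟨H1, H2, ?_, hws, ?_⟩
  · intro i j
    have e1 : cj (b * cj b t (j - i)) t i = cj (cj b t (j - i) * b) t i := by
      rw [(hD (j - i)).eq]
    rw [cj_mul, cj_mul, cj_cj, sub_add_cancel] at e1
    exact e1
  · rw [hbinv, hb]
    calc s * a * (w * (a * s) * w) * (s * a) = s * (a * w * a) * (s * w) * s * a := by group
      _ = s * (w * a * w) * (w * s) * s * a := by rw [R.r1, hws]
      _ = s * w * a * (w * w) * (s * s) * a := by group
      _ = s * w * (a * a) := by rw [R.ww, hss]; group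
      _ = w * s := by rw [R.aa, mul_one, hws]

end Pool.Agent.Helper73.BG
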