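import Pool.Agent.Helper46.C2.St

/-!
# MP_b3ce06_al, odd `q`: part (B)

`G = ⟨a, w, t | a w a = w a w⁻¹, w⁻¹ t w = t⁻¹, a_l = a_0 a_k t^h⟩`, `a_i = cj a t i = t⁻ⁱ a tⁱ`.
Part (A) (helper39, helper46, helper70): `z = w w = a a` is central, `z z = 1`, `(a w)³ = 1`.
Here: modulo `z` the element `s² = t^(2h)` is central of order at most 2; modulo `s²` the conjugates of
`b = a s` under `t` generate an abelian group, a free module of rank 1 over a finite ring
`L = ℤ[x]`, `x^h = -1`, `x^l + x^k = 1`.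
-/

set_option autoImplicit false

namespace Pool.Agent.Helper73.BG

open Pool.Agent.Helper43.GD

/-- The arithmetical condition on the exponents. -/
def Cop (l k h : ℕ) : Prop := IsCoprime ((k : ℤ) + l) ((h : ℤ) + k - 2 * l)

/-- The relations modulo the central subgroup `⟨w²⟩`. -/
structure RelB (l k h : ℕ) {G : Type} [Group G] (a w t : G) : Prop where
  ww : w * w = 1
  aa : a * a = 1
  r1 : a * w * a = w * a * w
  r2 : w * t * w = t⁻¹
  r3 : cj a t (l : ℤ) = a * cj a t (k : ℤ) * t ^ h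

/-- (B1) `t^(2h)` is central of order at most 2. -/
def StB1 : Prop :=
  ∀ (G : Type) [Group G] (l k h : ℕ) (a w t : G), Cop l k h → RelB l k h a w t →
    (t ^ h * t ^ h) * a = a * (t ^ h * t ^ h) ∧ (t ^ h * t ^ h) * w = w * (t ^ h * t ^ h) ∧
    (t ^ h * t ^ h) * t = t * (t ^ h * t ^ h) ∧ (t ^ h * t ^ h) * (t ^ h * t ^ h) = 1

/-- (B2) modulo `t^(2h)`: the conjugates of `b = a t^h` commute, and `b⁻¹ (w b w) b⁻¹ = w t^h`. -/
def StB2 : Prop :=
  ∀ (G : Type) [Group G] (l k h : ℕ) (a w t b : G), Cop l k h → RelB l k h a w t →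
    t ^ h * t ^ h = 1 → b = a * t ^ h →
    cj b t (h : ℤ) = b⁻¹ ∧ cj b t (l : ℤ) * cj b t (k : ℤ) = b ∧
    (∀ i j : ℤ, cj b t i * cj b t j = cj b t j * cj b t i) ∧
    w * t ^ h = t ^ h * w ∧ b⁻¹ * (w * b * w) * b⁻¹ = w * t ^ h

/-- (B3) the ring. -/
def StB3 : Prop :=
  ∀ (G : Type) [Group G] (l k h : ℕ) (b t : G), 1 ≤ h →
    (∀ i j : ℤ, cj b t i * cj b t j = cj b t j * cj b t i) → cj b t (h : ℤ) = b⁻¹ →
    cj b t (l : ℤ) * cj b t (k : ℤ) = b →
    ∃ (L : Type) (_ : CommRing L) (x : Lˣ) (E : L → G),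
      (∀ c d, E (c + d) = E c * E d) ∧ Function.Injective E ∧ E 1 = b ∧
      (∀ c, t⁻¹ * E c * t = E ((x : L) * c)) ∧ Gn (x : L) ∧ (x : L) ^ h = -1 ∧
      (x : L) ^ l + (x : L) ^ k = 1

/-- (B4) the ring is finite. -/
def StB4 : Prop :=
  ∀ (l k h : ℕ) (L : Type) [CommRing L] (x : Lˣ), 1 ≤ h → Cop l k h → Gn (x : L) →
    (x : L) ^ h = -1 → (x : L) ^ l + (x : L) ^ k = 1 → Finite L

/-- (B5) it is enough to treat the groups with `w² = 1`, `t^(2h) = 1`. -/
def StB5 : Prop :=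
  ∀ (l k h : ℕ), Cop l k h →
    (∀ (G : Type) [Group G] (a w t : G), RelB l k h a w t → t ^ h * t ^ h = 1 →
      Subgroup.closure {a, w, t} = (⊤ : Subgroup G) → Finite G) →
    ∀ (G : Type) [Group G] (a w t : G),
      (w * w) * (w * w) = 1 → a * a = w * w → (w * w) * a = a * (w * w) →
      (w * w) * t = t * (w * w) → a * w * a = w * a * w⁻¹ → w⁻¹ * t * w = t⁻¹ →
      cj a t (l : ℤ) = a * cj a t (k : ℤ) * t ^ h →
      Subgroup.closure {a, w, t} = (⊤ : Subgroup G) → Finite G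

end Pool.Agent.Helper73.BG
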